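import Pool.Agent.Helper32.AG.Goals

set_option autoImplicit false

namespace Pool.Agent.Helper7.AG

open Finset

theorem exists_prod {p : ℕ} [Fact p.Prime] {K : Type*} [Field K] [Finite K] [Algebra (ZMod p) K]
    (τ : K ≃ₐ[ZMod p] K) (c : K) (hc : τ c = c) :
    ∃ b : K, ∏ i ∈ range (orderOf τ), (τ ^ i) b = c := by
  classical
  have hfin : Finite (K ≃ₐ[ZMod p] K) := inferInstance
  have hcF : c ∈ IntermediateField.fixedField (Subgroup.zpowers τ) := by
    rw [IntermediateField.mem_fixedField_iff]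
    intro g hg
    obtain ⟨n, rfl⟩ := mem_powers_iff_mem_zpowers.2 hg
    show (τ ^ n) c = c
    induction n with
    | zero => simp
    | succ n ih =>
      rw [pow_succ]
      show (τ ^ n) (τ c) = c
      rw [hc]
      exact ih (mem_powers_iff_mem_zpowers.1 ⟨n, rfl⟩)
  obtain ⟨b, hb⟩ := FiniteField.norm_surjective
    (IntermediateField.fixedField (Subgroup.zpowers τ)) K ⟨c, hcF⟩
  refine ⟨b, ?_⟩
  have h := Algebra.norm_eq_prod_automorphisms
    (IntermediateField.fixedField (Subgroup.zpowers τ)) b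
  rw [hb] at h
  have h' : c = ∏ σ : Gal(K/IntermediateField.fixedField (Subgroup.zpowers τ)), σ b := h
  rw [h']
  have hFZ : Fintype (Subgroup.zpowers τ) := Fintype.ofFinite _
  rw [← Fintype.prod_equiv
    (IntermediateField.subgroupEquivAlgEquiv (Subgroup.zpowers τ)).toEquiv
    (fun s : Subgroup.zpowers τ => (s : K ≃ₐ[ZMod p] K) b) (fun σ => σ b) (fun s => rfl)]
  rw [← Fin.prod_univ_eq_prod_range (fun i => (τ ^ i) b) (orderOf τ)]
  exact Fintype.prod_equiv (finEquivZPowers (isOfFinOrder_of_finite τ)) _ _ (fun i => rfl)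

theorem exists_sum_ne {K U : Type*} [Field K] [AddCommGroup U] [Module K U] {p : ℕ}
    [Algebra (ZMod p) K] (τ : K ≃ₐ[ZMod p] K) (w : ℕ → U) (hw : w 0 ≠ 0) (hd : 0 < orderOf τ) :
    ∃ c : K, ∑ i ∈ range (orderOf τ), ((τ ^ i) c) • w i ≠ 0 := by
  by_contra hcon
  push Not at hcon
  apply hw
  rw [← Module.forall_dual_apply_eq_zero_iff K]
  intro φ
  have hinj : Function.Injective (fun i : Fin (orderOf τ) =>
      (((τ ^ (i : ℕ) : K ≃ₐ[ZMod p] K) : K →ₐ[ZMod p] K) : K →* K)) := by
    intro i j hij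
    have h1 : τ ^ (i : ℕ) = τ ^ (j : ℕ) := by
      ext x
      exact DFunLike.congr_fun hij x
    exact Fin.ext (pow_injOn_Iio_orderOf i.2 j.2 h1)
  have hli := (linearIndependent_monoidHom K K).comp _ hinj
  rw [Fintype.linearIndependent_iff] at hli
  have h2 := hli (fun i => φ (w i)) (by
    ext c
    have h3 := congrArg φ (hcon c)
    rw [map_sum, map_zero, ← Fin.sum_univ_eq_sum_range (fun i => φ (((τ ^ i) c) • w i))
      (orderOf τ)] at h3
    rw [Finset.sum_apply]
    refine Eq.trans ?_ h3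
    refine Finset.sum_congr rfl fun i _ => ?_
    rw [map_smul, smul_eq_mul, mul_comm]
    rfl) ⟨0, hd⟩
  exact h2

end Pool.Agent.Helper7.AG
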