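import Pool.Agent.Helper7.AG.A1

set_option autoImplicit false

namespace Pool.Agent.Helper7.AG

open Finset Pool.Agent.Helper32.AG

universe u

section

variable {p : ℕ} [Fact p.Prime] {U : Type u} [AddCommGroup U] [Module (ZMod p) U]

theorem coe_mul' (g h : U ≃ₗ[ZMod p] U) :
    ((g * h : U ≃ₗ[ZMod p] U) : Module.End (ZMod p) U) =
      (g : Module.End (ZMod p) U) * (h : Module.End (ZMod p) U) := rfl

theorem coe_mul_inv (h : U ≃ₗ[ZMod p] U) :
    (h : Module.End (ZMod p) U) * ((h⁻¹ : U ≃ₗ[ZMod p] U) : Module.End (ZMod p) U) = 1 := by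
  rw [← coe_mul', mul_inv_cancel]; rfl

theorem coe_inv_mul (h : U ≃ₗ[ZMod p] U) :
    ((h⁻¹ : U ≃ₗ[ZMod p] U) : Module.End (ZMod p) U) * (h : Module.End (ZMod p) U) = 1 := by
  rw [← coe_mul', inv_mul_cancel]; rfl

theorem cj_one (h : U ≃ₗ[ZMod p] U) : cj h 1 = 1 := by
  unfold cj; rw [mul_one, coe_mul_inv]

theorem cj_mul (h : U ≃ₗ[ZMod p] U) (x y : Module.End (ZMod p) U) :
    cj h (x * y) = cj h x * cj h y := by
  unfold cj
  simp only [mul_assoc]
  rw [← mul_assoc ((h⁻¹ : U ≃ₗ[ZMod p] U) : Module.End (ZMod p) U) (h : Module.End (ZMod p) U),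
    coe_inv_mul, one_mul]

theorem cj_add (h : U ≃ₗ[ZMod p] U) (x y : Module.End (ZMod p) U) :
    cj h (x + y) = cj h x + cj h y := by
  unfold cj; rw [mul_add, add_mul]

theorem cj_cj (g h : U ≃ₗ[ZMod p] U) (x : Module.End (ZMod p) U) :
    cj (g * h) x = cj g (cj h x) := by
  unfold cj
  rw [mul_inv_rev, coe_mul', coe_mul']
  simp only [mul_assoc]

theorem cj_mul_right (h : U ≃ₗ[ZMod p] U) (x : Module.End (ZMod p) U) :
    (h : Module.End (ZMod p) U) * x = cj h x * (h : Module.End (ZMod p) U) := by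
  unfold cj; rw [mul_assoc, coe_inv_mul, mul_one]

theorem cj_algebraMap (h : U ≃ₗ[ZMod p] U) (r : ZMod p) :
    cj h (algebraMap (ZMod p) (Module.End (ZMod p) U) r) = algebraMap _ _ r := by
  unfold cj
  rw [← Algebra.commutes, mul_assoc, coe_mul_inv, mul_one]

end

section

variable {p : ℕ} [Fact p.Prime] {U : Type u} [AddCommGroup U] [Module (ZMod p) U] [Finite U]
  [Nontrivial U] (K : Type u) [Field K] [Finite K] [Algebra (ZMod p) K]
  (ι : K →ₐ[ZMod p] Module.End (ZMod p) U) (H A : Subgroup (U ≃ₗ[ZMod p] U))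

omit [Finite U] [Nontrivial U] in
theorem theta (hι : Function.Injective ι) (hcj : ∀ h ∈ H, ∀ c, ∃ c', ι c' = cj h (ι c)) :
    ∃ Θ : H →* (K ≃ₐ[ZMod p] K), ∀ (h : H) (c : K), ι (Θ h c) = cj (h : U ≃ₗ[ZMod p] U) (ι c) := by
  have hex : ∀ h : H, ∃ f : K ≃ₐ[ZMod p] K, ∀ c, ι (f c) = cj (h : U ≃ₗ[ZMod p] U) (ι c) := by
    intro h
    choose g hg using hcj h h.2
    let f₀ : K →ₐ[ZMod p] K :=
      { toFun := g
        map_one' := hι (by rw [hg, map_one, cj_one])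
        map_mul' := fun x y => hι (by rw [hg, map_mul, map_mul, cj_mul, hg, hg])
        map_zero' := hι (by
          rw [hg, map_zero]; unfold cj; rw [mul_zero, zero_mul])
        map_add' := fun x y => hι (by rw [hg, map_add, map_add, cj_add, hg, hg])
        commutes' := fun r => hι (by rw [hg, AlgHom.commutes, cj_algebraMap]) }
    have hb : Function.Bijective f₀ := Finite.injective_iff_bijective.1 f₀.toRingHom.injective
    exact ⟨AlgEquiv.ofBijective f₀ hb, fun c => hg c⟩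
  choose F hF using hex
  refine ⟨MonoidHom.mk' F fun a b => AlgEquiv.ext fun c => hι ?_, fun h c => hF h c⟩
  rw [hF]
  show cj ((a : U ≃ₗ[ZMod p] U) * (b : U ≃ₗ[ZMod p] U)) (ι c) = ι (F a (F b c))
  rw [cj_cj, hF, hF]

omit [Finite U] in
theorem oneDim (hι : Function.Injective ι) (hIrr : Irr H)
    (hA : ∀ a ∈ A, ∃ c : K, ι c = (a : Module.End (ZMod p) U))
    (Θ : H →* (K ≃ₐ[ZMod p] K))
    (hΘ : ∀ (h : H) (c : K), ι (Θ h c) = cj (h : U ≃ₗ[ZMod p] U) (ι c))
    (hker : ∀ h : H, Θ h = 1 → (h : U ≃ₗ[ZMod p] U) ∈ A) :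
    Nat.card U = Nat.card K := by
  classical
  obtain ⟨g, hg⟩ := IsCyclic.exists_generator (α := Θ.range)
  obtain ⟨τ, σ, hσ⟩ := g
  subst hσ
  have hpow : ∀ h : H, ∃ n : ℕ, Θ h = Θ (σ ^ n) := by
    intro h
    have h1 := hg ⟨Θ h, h, rfl⟩
    obtain ⟨n, hn⟩ := mem_powers_iff_mem_zpowers.2 h1
    refine ⟨n, ?_⟩
    have h2 := congrArg Subtype.val hn
    rw [map_pow]
    exact h2.symm
  set τ := Θ σ with hτ
  have hD : 0 < orderOf τ := orderOf_pos τ
  have hσD : Θ (σ ^ orderOf τ) = 1 := by rw [map_pow, ← hτ, pow_orderOf_eq_one]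
  obtain ⟨c₀, hc₀⟩ := hA _ (hker _ hσD)
  have hcom : ∀ c : K, ((σ : U ≃ₗ[ZMod p] U) : Module.End (ZMod p) U) * ι c =
      ι (τ c) * ((σ : U ≃ₗ[ZMod p] U) : Module.End (ZMod p) U) := by
    intro c
    rw [cj_mul_right, ← hΘ]
  have hcoe : ∀ n : ℕ, (((σ ^ n : H) : U ≃ₗ[ZMod p] U) : Module.End (ZMod p) U) =
      ((σ : U ≃ₗ[ZMod p] U) : Module.End (ZMod p) U) ^ n := by
    intro n
    induction n with
    | zero => rfl
    | succ n ih => rw [pow_succ, pow_succ, ← ih]; rfl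
  have hc0ne : c₀ ≠ 0 := by
    rintro rfl
    rw [map_zero] at hc₀
    obtain ⟨x, hx⟩ := exists_ne (0 : U)
    apply hx
    have h3 := congrArg (fun f : Module.End (ZMod p) U =>
      (((σ ^ orderOf τ : H) : U ≃ₗ[ZMod p] U)⁻¹ : U ≃ₗ[ZMod p] U) (f x)) hc₀
    have h4 : (((σ ^ orderOf τ : H) : U ≃ₗ[ZMod p] U)⁻¹ : U ≃ₗ[ZMod p] U)
      (((σ ^ orderOf τ : H) : U ≃ₗ[ZMod p] U) x) = x :=
      ((σ ^ orderOf τ : H) : U ≃ₗ[ZMod p] U).symm_apply_apply x
    have h5 : (((σ ^ orderOf τ : H) : U ≃ₗ[ZMod p] U)⁻¹ : U ≃ₗ[ZMod p] U)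
      ((0 : Module.End (ZMod p) U) x) = 0 := by
      rw [LinearMap.zero_apply, map_zero]
    exact (h4.symm.trans h3.symm).trans h5
  have hτc : τ c₀ = c₀ := by
    apply hι
    have h6 := hcom c₀
    rw [hc₀, hcoe, ← pow_succ', pow_succ] at h6
    rw [hc₀, hcoe]
    have h7 : ι (τ c₀) * ((σ : U ≃ₗ[ZMod p] U) : Module.End (ZMod p) U) *
        (((σ : U ≃ₗ[ZMod p] U)⁻¹ : U ≃ₗ[ZMod p] U) : Module.End (ZMod p) U) =
        ((σ : U ≃ₗ[ZMod p] U) : Module.End (ZMod p) U) ^ orderOf τ *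
          ((σ : U ≃ₗ[ZMod p] U) : Module.End (ZMod p) U) *
        (((σ : U ≃ₗ[ZMod p] U)⁻¹ : U ≃ₗ[ZMod p] U) : Module.End (ZMod p) U) := by
      rw [h6]
    rwa [mul_assoc, coe_mul_inv, mul_one, mul_assoc, coe_mul_inv, mul_one] at h7
  obtain ⟨b, hb⟩ := exists_prod τ c₀ hτc
  have hbne : b ≠ 0 := by
    rintro rfl
    apply hc0ne
    rw [← hb]
    exact Finset.prod_eq_zero (Finset.mem_range.2 hD) (map_zero _)
  set S : Module.End (ZMod p) U := ι b⁻¹ * ((σ : U ≃ₗ[ZMod p] U) : Module.End (ZMod p) U) with hS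
  have hSc : ∀ c : K, S * ι c = ι (τ c) * S := by
    intro c
    rw [hS, mul_assoc, hcom, ← mul_assoc, ← mul_assoc, ← map_mul, ← map_mul, mul_comm b⁻¹]
  have hSic : ∀ (i : ℕ) (c : K), S ^ i * ι c = ι ((τ ^ i) c) * S ^ i := by
    intro i
    induction i with
    | zero => intro c; rw [pow_zero, pow_zero, one_mul, mul_one]; rfl
    | succ i ih =>
      intro c
      rw [pow_succ S, mul_assoc, hSc, ← mul_assoc, ih, mul_assoc, pow_succ τ]
      rfl
  have hSi : ∀ i : ℕ, S ^ i = ι (∏ j ∈ range i, (τ ^ j) b⁻¹) *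
      ((σ : U ≃ₗ[ZMod p] U) : Module.End (ZMod p) U) ^ i := by
    intro i
    induction i with
    | zero => rw [pow_zero, pow_zero, Finset.prod_range_zero, map_one, one_mul]
    | succ i ih =>
      have hP : (∏ j ∈ range (i + 1), (τ ^ j) b⁻¹) = b⁻¹ * τ (∏ j ∈ range i, (τ ^ j) b⁻¹) := by
        rw [Finset.prod_range_succ', mul_comm, map_prod]
        refine congrArg₂ _ rfl (Finset.prod_congr rfl fun j _ => ?_)
        rw [pow_succ']
        rfl
      rw [pow_succ' S, ih, hP, hS, map_mul, pow_succ']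
      simp only [mul_assoc]
      congr 1
      simp only [← mul_assoc]
      rw [hcom]
  have hSD : S ^ orderOf τ = 1 := by
    rw [hSi]
    have h8 : (∏ j ∈ range (orderOf τ), (τ ^ j) b⁻¹) = c₀⁻¹ := by
      rw [← hb, ← Finset.prod_inv_distrib]
      exact Finset.prod_congr rfl fun j _ => map_inv₀ _ _
    rw [h8, ← hcoe, ← hc₀, ← map_mul, inv_mul_cancel₀ hc0ne, map_one]
  obtain ⟨u, hu⟩ := exists_ne (0 : U)
  let _ : Module K U := Module.compHom U ι.toRingHom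
  have hsm : ∀ (c : K) (x : U), c • x = ι c x := fun c x => rfl
  obtain ⟨c, hc⟩ := exists_sum_ne τ (fun i => (S ^ i) u)
    (by simpa using hu) hD
  set v : U := ∑ i ∈ range (orderOf τ), ((τ ^ i) c) • (S ^ i) u with hv
  have hv' : v = ∑ i ∈ range (orderOf τ), (S ^ i) (ι c u) := by
    rw [hv]
    refine Finset.sum_congr rfl fun i _ => ?_
    rw [hsm]
    exact (congrArg (fun f : Module.End (ZMod p) U => f u) (hSic i c)).symm
  have hSv : S v = v := by
    have h9 : S v = ∑ i ∈ range (orderOf τ), (S ^ (i + 1)) (ι c u) := by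
      rw [hv', map_sum]
      refine Finset.sum_congr rfl fun i _ => ?_
      rw [pow_succ']
      rfl
    have h10 := Finset.sum_range_succ' (fun i => (S ^ i) (ι c u)) (orderOf τ)
    rw [Finset.sum_range_succ, ← h9, ← hv', hSD, pow_zero] at h10
    exact (add_right_cancel h10).symm
  have hσv : (σ : U ≃ₗ[ZMod p] U) v = ι b v := by
    have h11 : ι b (S v) = (σ : U ≃ₗ[ZMod p] U) v := by
      have h12 : ι b * S = ((σ : U ≃ₗ[ZMod p] U) : Module.End (ZMod p) U) := by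
        rw [hS, ← mul_assoc, ← map_mul, mul_inv_cancel₀ hbne, map_one, one_mul]
      exact congrArg (fun f : Module.End (ZMod p) U => f v) h12
    rw [← h11, hSv]
  let f : K →ₗ[ZMod p] U := ι.toLinearMap.flip v
  have hf : ∀ c, f c = ι c v := fun c => rfl
  have hinj : Function.Injective f := by
    rw [injective_iff_map_eq_zero]
    intro x hx
    by_contra hne
    apply hc
    have h13 : ι x⁻¹ (ι x v) = v := by
      have : ι x⁻¹ * ι x = 1 := by rw [← map_mul, inv_mul_cancel₀ hne, map_one]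
      exact congrArg (fun f : Module.End (ZMod p) U => f v) this
    rw [← h13]
    rw [hf] at hx
    rw [hx, map_zero]
  have hAW : ∀ a ∈ A, ∀ w ∈ LinearMap.range f, a w ∈ LinearMap.range f := by
    rintro a ha _ ⟨x, rfl⟩
    obtain ⟨y, hy⟩ := hA a ha
    refine ⟨y * x, ?_⟩
    rw [hf, hf, map_mul, hy]
    rfl
  have hσW : ∀ w ∈ LinearMap.range f, (σ : U ≃ₗ[ZMod p] U) w ∈ LinearMap.range f := by
    rintro _ ⟨x, rfl⟩
    refine ⟨τ x * b, ?_⟩
    rw [hf, hf, map_mul]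
    have h15 : (σ : U ≃ₗ[ZMod p] U) (ι x v) = ι (τ x) ((σ : U ≃ₗ[ZMod p] U) v) :=
      congrArg (fun f : Module.End (ZMod p) U => f v) (hcom x)
    rw [h15, hσv]
    rfl
  have hσnW : ∀ (n : ℕ), ∀ w ∈ LinearMap.range f,
      ((σ ^ n : H) : U ≃ₗ[ZMod p] U) w ∈ LinearMap.range f := by
    intro n
    induction n with
    | zero => intro w hw; exact hw
    | succ n ih =>
      intro w hw
      rw [pow_succ]
      exact ih _ (hσW w hw)
  have hinv : ∀ h ∈ H, ∀ w ∈ LinearMap.range f, h w ∈ LinearMap.range f := by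
    intro h hh w hw
    obtain ⟨n, hn⟩ := hpow ⟨h, hh⟩
    have h16 : Θ ((σ ^ n)⁻¹ * ⟨h, hh⟩) = 1 := by
      rw [map_mul, map_inv, hn, inv_mul_cancel]
    have h17 := hker _ h16
    have h18 : h = ((σ ^ n : H) : U ≃ₗ[ZMod p] U) *
        (((σ ^ n)⁻¹ * ⟨h, hh⟩ : H) : U ≃ₗ[ZMod p] U) := by
      show h = ((σ ^ n : H) : U ≃ₗ[ZMod p] U) * ((((σ ^ n : H) : U ≃ₗ[ZMod p] U))⁻¹ * h)
      rw [mul_inv_cancel_left]
    rw [h18]
    exact hσnW n _ (hAW _ h17 w hw)
  have hsurj : Function.Surjective f := by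
    rw [← LinearMap.range_eq_top]
    rcases hIrr (LinearMap.range f) hinv with h0 | h0
    · exfalso
      apply hc
      have h14 : v ∈ LinearMap.range f := ⟨1, by rw [hf, map_one]; rfl⟩
      rw [h0, Submodule.mem_bot] at h14
      exact h14
    · exact h0
  exact (Nat.card_congr (Equiv.ofBijective f ⟨hinj, hsurj⟩)).symm

end

end Pool.Agent.Helper7.AG
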