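import Pool.Agent.Helper7.AG.A2

set_option autoImplicit false

namespace Pool.Agent.Helper7.AG

open Finset Pool.Agent.Helper32.AG

universe u

section

variable {p : ℕ} [Fact p.Prime] {U : Type u} [AddCommGroup U] [Module (ZMod p) U] [Finite U]
  [Nontrivial U] (K : Type u) [Field K] [Finite K] [Algebra (ZMod p) K]
  (ι : K →ₐ[ZMod p] Module.End (ZMod p) U) (H A : Subgroup (U ≃ₗ[ZMod p] U))

omit [Finite U] [Nontrivial U] [Finite K] in
theorem card_dvd (hι : Function.Injective ι)
    (hA : ∀ a ∈ A, ∃ c : K, ι c = (a : Module.End (ZMod p) U)) :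
    ∃ χ : A →* Kˣ, Function.Injective χ ∧ ∀ a : A, ι (χ a : K) = (a : U ≃ₗ[ZMod p] U) := by
  choose g hg using fun a : A => hA a a.2
  let χ₀ : A →* K :=
    { toFun := g
      map_one' := hι (by rw [hg, map_one]; rfl)
      map_mul' := fun x y => hι (by rw [hg, map_mul, hg, hg]; rfl) }
  refine ⟨χ₀.toHomUnits, ?_, fun a => hg a⟩
  intro x y hxy
  have h1 : g x = g y := congrArg (fun z : Kˣ => (z : K)) hxy
  have h2 : ((x : U ≃ₗ[ZMod p] U) : Module.End (ZMod p) U) = (y : U ≃ₗ[ZMod p] U) := by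
    rw [← hg, ← hg, h1]
  exact Subtype.ext (LinearEquiv.toLinearMap_injective h2)

theorem core (h1 : GrpStmt.{u}) (hι : Function.Injective ι) (hIrr : Irr H) (hAH : A ≤ H)
    (hself : ∀ h ∈ H, (∀ a ∈ A, h * a = a * h) → h ∈ A)
    (hA : ∀ a ∈ A, ∃ c : K, ι c = (a : Module.End (ZMod p) U))
    (hgen : ∀ S : Subalgebra (ZMod p) K,
      (∀ c, (∃ a ∈ A, ι c = (a : Module.End (ZMod p) U)) → c ∈ S) → S = ⊤)
    (hcj : ∀ h ∈ H, ∀ c, ∃ c', ι c' = cj h (ι c))
    (hp : ¬ p ∣ Nat.card H) : OneOut H := by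
  classical
  have hfinU : Finite (U ≃ₗ[ZMod p] U) :=
    Finite.of_injective (fun e : U ≃ₗ[ZMod p] U => (e : U → U)) DFunLike.coe_injective
  obtain ⟨Θ, hΘ⟩ := theta K ι H hι hcj
  have hker : ∀ h : H, Θ h = 1 → (h : U ≃ₗ[ZMod p] U) ∈ A := by
    intro h hh
    apply hself _ h.2
    intro a ha
    obtain ⟨c, hc⟩ := hA a ha
    have h2 := hΘ h c
    rw [hh] at h2
    have h3 : ι c = cj (h : U ≃ₗ[ZMod p] U) (ι c) := h2
    rw [hc] at h3
    have h4 := cj_mul_right (h : U ≃ₗ[ZMod p] U) (a : Module.End (ZMod p) U)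
    rw [← h3] at h4
    exact LinearEquiv.toLinearMap_injective h4
  have hker' : ∀ h : H, (h : U ≃ₗ[ZMod p] U) ∈ A → Θ h = 1 := by
    intro h hh
    obtain ⟨c₀, hc₀⟩ := hA _ hh
    ext c
    apply hι
    rw [hΘ]
    unfold cj
    rw [← hc₀, ← map_mul, mul_comm c₀ c, map_mul, hc₀, mul_assoc, coe_mul_inv, mul_one]
    rfl
  have hcardK : Θ.ker = A.subgroupOf H := by
    ext h
    rw [MonoidHom.mem_ker, Subgroup.mem_subgroupOf]
    exact ⟨hker h, hker' h⟩
  have hcA : Nat.card Θ.ker = Nat.card A := by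
    rw [hcardK]
    exact Nat.card_congr (Subgroup.subgroupOfEquivOfLe hAH).toEquiv
  have hcH : Nat.card H = Nat.card A * Nat.card Θ.range := by
    rw [← hcA, ← Subgroup.index_ker, Subgroup.card_mul_index]
  obtain ⟨χ, hχ, hχ'⟩ := card_dvd K ι A hι hA
  have hK := FiniteField.pow_finrank_eq_natCard p K
  have hUK := oneDim K ι H A hι hIrr hA Θ hΘ hker
  have hgal : Nat.card (K ≃ₐ[ZMod p] K) = Module.finrank (ZMod p) K :=
    IsGalois.card_aut_eq_finrank (ZMod p) K
  refine ⟨Module.finrank (ZMod p) K, Nat.card Θ.range, Nat.card A, Module.finrank_pos,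
    Nat.card_pos, Nat.card_pos, by rw [hUK, hK], ?_, ?_, ?_, ?_, hcH, ?_⟩
  · rw [← hgal]
    exact Subgroup.card_subgroup_dvd_card _
  · intro h
    exact hp (h.trans ⟨Nat.card A, by rw [hcH, mul_comm]⟩)
  · rw [hK, ← Nat.card_units]
    exact Subgroup.card_dvd_of_injective χ hχ
  · intro a' ha' hlt hdvd
    have ha0 : a' ≠ 0 := by
      rintro rfl
      rw [zero_dvd_iff] at ha'
      exact (Module.finrank_pos (R := ZMod p) (M := K)).ne' ha'
    have hpp : 1 < p := (Fact.out : p.Prime).one_lt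
    have hpow : 0 < p ^ a' := pow_pos (by omega) _
    have hchar : CharP K p := by
      rw [← Algebra.charP_iff (ZMod p) K p]; exact ZMod.charP p
    have hexp : ExpChar K p := ExpChar.prime Fact.out
    let S : Subalgebra (ZMod p) K :=
      { carrier := {x | x ^ p ^ a' = x}
        mul_mem' := fun {x y} hx hy => by
          show (x * y) ^ p ^ a' = x * y
          rw [mul_pow, hx, hy]
        add_mem' := fun {x y} hx hy => by
          show (x + y) ^ p ^ a' = x + y
          rw [add_pow_expChar_pow, hx, hy]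
        algebraMap_mem' := fun r => by
          show (algebraMap (ZMod p) K r) ^ p ^ a' = algebraMap (ZMod p) K r
          rw [← map_pow, ZMod.pow_card_pow] }
    have hS : S = ⊤ := by
      apply hgen
      rintro c ⟨a, ha, hc⟩
      show c ^ p ^ a' = c
      have h5 : χ ⟨a, ha⟩ ^ (p ^ a' - 1) = 1 := by
        rw [← map_pow]
        obtain ⟨m, hm⟩ := hdvd
        rw [hm, pow_mul]
        have h6 : (⟨a, ha⟩ : A) ^ Nat.card A = 1 := pow_card_eq_one'
        rw [h6, one_pow, map_one]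
      have h7 : ((χ ⟨a, ha⟩ : Kˣ) : K) = c := hι (by rw [hχ', hc])
      have h8 : c ^ (p ^ a' - 1) = 1 := by
        rw [← h7, ← Units.val_pow_eq_pow_val, h5, Units.val_one]
      calc c ^ p ^ a' = c ^ (p ^ a' - 1 + 1) := by rw [Nat.sub_add_cancel hpow]
        _ = c := by rw [pow_succ, h8, one_mul]
    have hroot : ∀ x : K, x ^ p ^ a' = x := by
      intro x
      have : x ∈ S := by rw [hS]; exact Algebra.mem_top
      exact this
    -- count the roots
    have hne : (Polynomial.X ^ p ^ a' - Polynomial.X : Polynomial K) ≠ 0 :=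
      FiniteField.X_pow_card_pow_sub_X_ne_zero K ha0 hpp
    have hfK : Fintype K := Fintype.ofFinite K
    have h9 : Fintype.card K ≤ p ^ a' := by
      have h10 : (Finset.univ : Finset K) ⊆
          (Polynomial.X ^ p ^ a' - Polynomial.X : Polynomial K).roots.toFinset := by
        intro x _
        rw [Multiset.mem_toFinset, Polynomial.mem_roots hne]
        simp [Polynomial.IsRoot, hroot x]
      calc Fintype.card K = (Finset.univ : Finset K).card := rfl
        _ ≤ _ := Finset.card_le_card h10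
        _ ≤ _ := Multiset.toFinset_card_le _
        _ ≤ _ := Polynomial.card_roots' _
        _ = p ^ a' := FiniteField.X_pow_card_pow_sub_X_natDegree_eq K ha0 hpp
    rw [Fintype.card_eq_nat_card, ← hK] at h9
    exact absurd h9 (not_le.2 (Nat.pow_lt_pow_right hpp hlt))
  · have hN : ∀ x ∈ Θ.ker, ∀ y ∈ Θ.ker, x * y = y * x := by
      intro x hx y hy
      obtain ⟨c, hc⟩ := hA _ (hker x hx)
      obtain ⟨c', hc'⟩ := hA _ (hker y hy)
      apply Subtype.ext
      apply LinearEquiv.toLinearMap_injective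
      show ((x : U ≃ₗ[ZMod p] U) : Module.End (ZMod p) U) * (y : U ≃ₗ[ZMod p] U) =
        ((y : U ≃ₗ[ZMod p] U) : Module.End (ZMod p) U) * (x : U ≃ₗ[ZMod p] U)
      rw [← hc, ← hc', ← map_mul, ← map_mul, mul_comm]
    have h11 := h1.1 H Θ.ker hN
    have hcomm : ∀ x y : H ⧸ Θ.ker, x * y = y * x := by
      intro x y
      induction x using QuotientGroup.induction_on with
      | H x =>
        induction y using QuotientGroup.induction_on with
        | H y =>
          rw [← QuotientGroup.mk_mul, ← QuotientGroup.mk_mul, QuotientGroup.eq,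
            MonoidHom.mem_ker]
          have hcc : Θ x * Θ y = Θ y * Θ x := by
            obtain ⟨g, hg⟩ := IsCyclic.exists_generator (α := (K ≃ₐ[ZMod p] K))
            obtain ⟨i, hi⟩ := hg (Θ x)
            obtain ⟨j, hj⟩ := hg (Θ y)
            rw [← hi, ← hj]
            exact (Commute.refl g).zpow_zpow i j
          rw [map_mul, map_inv, map_mul, map_mul, hcc, inv_mul_cancel]
    have h12 := h1.2.2 (H ⧸ Θ.ker) hcomm
    have h13 : Nat.card (H ⧸ Θ.ker) = Nat.card Θ.range := by
      rw [← Subgroup.index_ker]; rfl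
    rw [h12, h13, hcA, Subgroup.index_ker] at h11
    exact h11

end

theorem one (h1 : GrpStmt.{u}) : OneStmt.{u} := by
  intro p hp U _ _ _ _ H A q e hIrr hAH hnorm hcomm hself hpc hD
  have he : e 0 = 1 := by
    have := hD.sum
    rwa [Fin.sum_univ_one] at this
  have hcs : ∀ a ∈ ((fun a : U ≃ₗ[ZMod p] U => (a : Module.End (ZMod p) U)) ''
      (A : Set (U ≃ₗ[ZMod p] U))), ∀ b ∈ ((fun a : U ≃ₗ[ZMod p] U =>
        (a : Module.End (ZMod p) U)) '' (A : Set (U ≃ₗ[ZMod p] U))), a * b = b * a := by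
    rintro _ ⟨a, ha, rfl⟩ _ ⟨b, hb, rfl⟩
    show ((a * b : U ≃ₗ[ZMod p] U) : Module.End (ZMod p) U) = ((b * a : U ≃ₗ[ZMod p] U) : _)
    rw [hcomm a ha b hb]
  have hF : IsField (Rg A) := by
    refine ⟨⟨0, 1, ?_⟩, ?_, ?_⟩
    · intro h
      obtain ⟨x, hx⟩ := exists_ne (0 : U)
      apply hx
      have h2 : (0 : Module.End (ZMod p) U) = 1 := congrArg Subtype.val h
      have h3 := congrArg (fun f : Module.End (ZMod p) U => f x) h2
      exact h3.symm
    · intro x y
      exact (Algebra.isMulCommutative_adjoin (ZMod p) hcs).is_comm.comm x y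
    · intro x hx
      have hx' : (x : Module.End (ZMod p) U) * e 0 ≠ 0 := by
        rw [he, mul_one]
        exact fun h => hx (Subtype.ext h)
      obtain ⟨y, hy, hxy⟩ := hD.fld 0 x x.2 hx'
      refine ⟨⟨y, hy⟩, Subtype.ext ?_⟩
      rw [he, mul_one] at hxy
      exact hxy
  let _ : Field (Rg A) := hF.toField
  have hfin : Finite (Rg A) := by
    have : Finite (Module.End (ZMod p) U) :=
      Finite.of_injective (fun e : Module.End (ZMod p) U => (e : U → U)) DFunLike.coe_injective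
    exact Subtype.finite
  let ι : Rg A →ₐ[ZMod p] Module.End (ZMod p) U := (Rg A).val
  have hι : ∀ c : Rg A, ι c = (c : Module.End (ZMod p) U) := fun c => rfl
  refine core (Rg A) ι H A h1 (fun x y h => Subtype.ext h) hIrr hAH hself ?_ ?_ ?_ hpc
  · intro a ha
    exact ⟨⟨a, Algebra.subset_adjoin ⟨a, ha, rfl⟩⟩, rfl⟩
  · intro S hS
    have h4 : Rg A ≤ S.map ι := by
      apply Algebra.adjoin_le
      rintro _ ⟨a, ha, rfl⟩
      exact ⟨⟨a, Algebra.subset_adjoin ⟨a, ha, rfl⟩⟩, hS _ ⟨a, ha, rfl⟩, rfl⟩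
    rw [eq_top_iff]
    intro x _
    obtain ⟨y, hy, hxy⟩ := h4 x.2
    have : y = x := Subtype.ext hxy
    rw [← this]
    exact hy
  · intro h hh c
    refine ⟨⟨cj h c, ?_⟩, rfl⟩
    have h5 : ∀ x ∈ Rg A, cj h x ∈ Rg A := by
      intro x hx
      refine Algebra.adjoin_induction (p := fun x _ => cj h x ∈ Rg A) ?_ ?_ ?_ ?_ hx
      · rintro _ ⟨a, ha, rfl⟩
        exact Algebra.subset_adjoin ⟨h * a * h⁻¹, hnorm h hh a ha, rfl⟩
      · intro r
        rw [cj_algebraMap]
        exact Subalgebra.algebraMap_mem _ _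
      · intro x y _ _ hx hy
        rw [cj_add]
        exact Subalgebra.add_mem _ hx hy
      · intro x y _ _ hx hy
        rw [cj_mul]
        exact Subalgebra.mul_mem _ hx hy
    exact h5 c c.2

end Pool.Agent.Helper7.AG
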